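import Pool.Agent.Work.MP_2738db_nt_Y.Interface

/-!
Block Y1 of Theorem Y (MP_2738db_nt).
-/

set_option autoImplicit false

namespace Pool.Agent.Work.MP_2738db_nt_Y.helper2

open Pool.Agent.Work.MP_2738db_nt_Y

/-- from the logarithmic inequality to the power inequality -/
private lemma rpow_of_log {X Y : ℕ} (hX : 1 ≤ X) (hY : 1 ≤ Y) {t : ℝ}
    (h : Real.log X - Real.log Y ≤ t * Real.log X) : (X : ℝ) ^ (1 - t) ≤ (Y : ℝ) := by
  have hX0 : (0 : ℝ) < X := by exact_mod_cast hX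
  have hY0 : (0 : ℝ) < Y := by exact_mod_cast hY
  rw [Real.rpow_def_of_pos hX0, ← Real.exp_log hY0]
  apply Real.exp_le_exp.mpr
  nlinarith

/-- the main case: `A ^ p`, `B ^ p` with `B < A`. -/
private lemma key {C : ℝ} (hC : ∀ (p k A B c : ℕ) (M : ℝ), p.Prime → 3 ≤ p → 2 ≤ k → 1 ≤ B →
      B < A → Nat.Coprime A B → 1 ≤ c → (A ^ p + B ^ p = c ^ k ∧ M = Real.log (c ^ k) ∨
      B ^ p + c ^ k = A ^ p ∧ M = Real.log (A ^ p)) →
      M - p * Real.log B ≤ C * (p * Real.log k ^ 3 / k) * M)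
    (p k A B c : ℕ) (hp : p.Prime) (hp3 : 3 ≤ p) (hk : 2 ≤ k) (hB : 1 ≤ B) (hAB : B < A)
    (hco : Nat.Coprime A B) (hc : 1 ≤ c)
    (h : A ^ p + B ^ p = c ^ k ∨ B ^ p + c ^ k = A ^ p) :
    ((max (A ^ p) (max (B ^ p) (c ^ k)) : ℕ) : ℝ) ^ (1 - C * (p * Real.log k ^ 3 / k)) ≤
      ((min (A ^ p) (B ^ p) : ℕ) : ℝ) := by
  have hp0 : p ≠ 0 := by omega
  have hlt : B ^ p < A ^ p := Nat.pow_lt_pow_left hAB hp0
  have hBp : 1 ≤ B ^ p := Nat.one_le_pow _ _ hB
  have hAp : 1 ≤ A ^ p := by omega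
  have hck : 1 ≤ c ^ k := Nat.one_le_pow _ _ hc
  rw [min_eq_right hlt.le]
  rcases h with h | h
  · have hmax : max (A ^ p) (max (B ^ p) (c ^ k)) = c ^ k := by
      rw [max_eq_right (a := B ^ p) (b := c ^ k) (by omega), max_eq_right (by omega)]
    rw [hmax]
    apply rpow_of_log hck hBp
    have := hC p k A B c (Real.log (c ^ k)) hp hp3 hk hB hAB hco hc (Or.inl ⟨h, rfl⟩)
    push_cast
    rw [Real.log_pow (B : ℝ) p] 
    exact this
  · have hmax : max (A ^ p) (max (B ^ p) (c ^ k)) = A ^ p := by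
      rw [max_eq_left]
      exact max_le (by omega) (by omega)
    rw [hmax]
    apply rpow_of_log hAp hBp
    have := hC p k A B c (Real.log (A ^ p)) hp hp3 hk hB hAB hco hc (Or.inr ⟨h, rfl⟩)
    push_cast
    rw [Real.log_pow (B : ℝ) p]
    exact this

theorem y1 : Stmt_Gap2 → Stmt_Y1 := by
  rintro ⟨C, _, hC⟩
  refine ⟨C, ?_⟩
  intro a b c m n k p ha hb hc hab hk hp hp2 hm hn hpm hpn h
  have hp3 : 3 ≤ p := by
    have := hp.two_le
    omega
  have hp0 : p ≠ 0 := by omega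
  obtain ⟨m', rfl⟩ := hpm
  obtain ⟨n', rfl⟩ := hpn
  have ea : a ^ (p * m') = (a ^ m') ^ p := by rw [mul_comm, pow_mul]
  have eb : b ^ (p * n') = (b ^ n') ^ p := by rw [mul_comm, pow_mul]
  rw [ea, eb] at h ⊢
  have hA : 1 ≤ a ^ m' := Nat.one_le_pow _ _ ha
  have hB : 1 ≤ b ^ n' := Nat.one_le_pow _ _ hb
  have hco : Nat.Coprime (a ^ m') (b ^ n') := Nat.Coprime.pow _ _ hab
  generalize a ^ m' = A at *
  generalize b ^ n' = B at *
  have hck : 1 ≤ c ^ k := Nat.one_le_pow _ _ hc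
  rcases lt_trichotomy A B with hlt | heq | hgt
  · -- `A < B`
    have hl : A ^ p < B ^ p := Nat.pow_lt_pow_left hlt hp0
    have e1 : max (A ^ p) (max (B ^ p) (c ^ k)) = max (B ^ p) (max (A ^ p) (c ^ k)) :=
      max_left_comm _ _ _
    rw [e1, min_comm (A ^ p) (B ^ p)]
    refine key hC p k B A c hp hp3 hk hA hlt hco.symm hc ?_
    rcases h with h | h | h
    · left; omega
    · exfalso; omega
    · right; omega
  · -- `A = B = 1`
    subst heq
    have hA1 : A = 1 := by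
      have := hco
      rwa [Nat.coprime_self] at this
    subst hA1
    exfalso
    simp only [one_pow] at h
    rcases h with h | h | h
    · have hc2 : 2 ≤ c := by
        rcases Nat.lt_or_ge c 2 with h2 | h2
        · have : c = 1 := by omega
          subst this
          simp at h
        · exact h2
      have : 2 ^ 2 ≤ c ^ k := le_trans (Nat.pow_le_pow_left hc2 2) (Nat.pow_le_pow_right hc hk)
      omega
    · omega
    · omega
  · -- `B < A`
    have hl : B ^ p < A ^ p := Nat.pow_lt_pow_left hgt hp0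
    refine key hC p k A B c hp hp3 hk hB hgt hco hc ?_
    rcases h with h | h | h
    · left; omega
    · right; omega
    · exfalso; omega

end Pool.Agent.Work.MP_2738db_nt_Y.helper2
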